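import Pool.Agent.Y151.RD.Fa

/-!
Final step: no asymptotics of the form `c n^{-d} ρ^{2n}` (task RD19 of the project RD).
-/

set_option autoImplicit false

namespace Pool.Agent.Y151.RD

open Filter Topology Pool.Agent.Y938.RD

/-- summability from the even indices -/
theorem summable_even {f : ℕ → ℝ} (hodd : ∀ m : ℕ, f (2 * m + 1) = 0)
    (h : Summable fun n : ℕ => f (2 * n)) : Summable f := by
  have hinj : Function.Injective fun n : ℕ => 2 * n := fun a b h => by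
    have h' : 2 * a = 2 * b := h
    omega
  refine (hinj.summable_iff ?_).1 h
  intro x hx
  rcases Nat.even_or_odd' x with ⟨k, hk | hk⟩
  · exact absurd ⟨k, hk.symm⟩ hx
  · rw [hk]
    exact hodd k

/-- polynomial times geometric, real exponent -/
theorem rpow_le_pow_ceil (d : ℝ) {n : ℕ} (hn : 1 ≤ n) : (n : ℝ) ^ d ≤ (n : ℝ) ^ ⌈|d|⌉₊ := by
  have h1 : (1 : ℝ) ≤ (n : ℝ) := by exact_mod_cast hn
  rw [← Real.rpow_natCast]
  exact Real.rpow_le_rpow_of_exponent_le h1 ((le_abs_self d).trans (Nat.le_ceil _))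

theorem final_spec (h0 : S_fin0) (h1 : S_fin1) (h2 : S_fin2) : S_final := by
  intro q r K δ D hq hodd hr hsum hδ hδ2 hδη hD heq c d ρ hc hρ hE
  have hDb := hD
  obtain ⟨cD, CD, hcD, hDb'⟩ := hD
  have hmem : Set.Ioc (0 : ℝ) 1 ∈ 𝓝[>] (0 : ℝ) := Ioc_mem_nhdsGT one_pos
  have hid : Tendsto (fun t : ℝ => t) (𝓝[>] 0) (𝓝 0) :=
    (continuous_id.tendsto (0 : ℝ)).mono_left nhdsWithin_le_nhds
  -- the limits
  have hδ0 : Tendsto δ (𝓝[>] 0) (𝓝 0) := by
    obtain ⟨C, hC0, hC⟩ := hδη (1 / 2) (by norm_num) (by norm_num)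
    have hlim : Tendsto (fun t : ℝ => C * t ^ (2 - 1 / 2 : ℝ)) (𝓝[>] 0) (𝓝 0) := by
      have h3 : Tendsto (fun t : ℝ => t ^ (2 - 1 / 2 : ℝ)) (𝓝[>] 0)
          (𝓝 ((0 : ℝ) ^ (2 - 1 / 2 : ℝ))) :=
        (Real.continuousAt_rpow_const 0 _ (Or.inr (by norm_num))).tendsto.mono_left
          nhdsWithin_le_nhds
      rw [Real.zero_rpow (by norm_num)] at h3
      have h4 := h3.const_mul C
      rwa [mul_zero] at h4
    refine tendsto_of_tendsto_of_tendsto_of_le_of_le' tendsto_const_nhds hlim ?_ ?_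
    · filter_upwards [hmem] with t ht
      exact (hδ t ht.1 ht.2).le
    · filter_upwards [hmem] with t ht
      exact hC t ht.1 ht.2
  have hD0 : Tendsto D (𝓝[>] 0) (𝓝 0) := by
    have hlim : Tendsto (fun t : ℝ => CD * t) (𝓝[>] 0) (𝓝 0) := by
      have h4 := hid.const_mul CD
      rwa [mul_zero] at h4
    have hlim' : Tendsto (fun t : ℝ => cD * t) (𝓝[>] 0) (𝓝 0) := by
      have h4 := hid.const_mul cD
      rwa [mul_zero] at h4
    refine tendsto_of_tendsto_of_tendsto_of_le_of_le' hlim' hlim ?_ ?_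
    · filter_upwards [hmem] with t ht
      exact (hDb' t ht.1 ht.2).1
    · filter_upwards [hmem] with t ht
      exact (hDb' t ht.1 ht.2).2
  have hDnn : ∀ t : ℝ, 0 < t → t ≤ 1 → 0 ≤ D t := fun t ht ht1 =>
    (mul_nonneg hcD.le ht.le).trans (hDb' t ht ht1).1
  have hK : HasSum (fun n : ℕ => q n / r ^ (n + 1)) K :=
    h0 q r K δ D hq hr hsum hδ hδ0 hD0 hDnn heq
  have case1 : ∀ e : ℝ, 1 / 2 < e → e ≤ 1 →
      Summable (fun n : ℕ => q n / r ^ (n + 1) * ((n : ℝ) + 1) ^ e) → False :=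
    fun e he he1 hse => h1 q r K e δ D hq hr hδ hδη hDb heq hK he he1 hse
  have case2 : ∀ (c' : ℝ) (N0 : ℕ), 0 < c' →
      (∀ n : ℕ, N0 ≤ n → c' * (n : ℝ) ^ (-(3 / 2) : ℝ) ≤ q (2 * n) / r ^ (2 * n)) → False :=
    h2 q r K δ D hq hr hδ hδ0 hδ2 hDb heq hK
  -- the two bounds
  obtain ⟨C1, hC1, hb1⟩ := hE.isBigO.exists_pos
  obtain ⟨C2, hC2, hb2⟩ := hE.symm.isBigO.exists_pos
  have hv0 : ∀ n : ℕ, 0 ≤ c * (n : ℝ) ^ (-d) * ρ ^ (2 * n) := fun n =>
    mul_nonneg (mul_nonneg hc.le (Real.rpow_nonneg (Nat.cast_nonneg n) _)) (pow_nonneg hρ _)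
  obtain ⟨N1, hN1⟩ := eventually_atTop.1 (hb1.bound)
  obtain ⟨N2, hN2⟩ := eventually_atTop.1 (hb2.bound)
  have hup : ∀ n, N1 ≤ n → q (2 * n) ≤ C1 * (c * (n : ℝ) ^ (-d) * ρ ^ (2 * n)) := by
    intro n hn
    have h3 := hN1 n hn
    rwa [Real.norm_of_nonneg (hq _), Real.norm_of_nonneg (hv0 n)] at h3
  have hdn : ∀ n, N2 ≤ n → c * (n : ℝ) ^ (-d) * ρ ^ (2 * n) ≤ C2 * q (2 * n) := by
    intro n hn
    have h3 := hN2 n hn
    rwa [Real.norm_of_nonneg (hq _), Real.norm_of_nonneg (hv0 n)] at h3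
  -- summability at the even indices is enough
  have hev : ∀ e : ℝ, 0 < e → (Summable fun n : ℕ =>
      (n : ℝ) ^ (-d) * ((n : ℝ) ^ e) * ((ρ / r) ^ 2) ^ n) →
      Summable (fun n : ℕ => q n / r ^ (n + 1) * ((n : ℝ) + 1) ^ e) := by
    intro e he hse
    refine summable_even (fun m => by rw [hodd, zero_div, zero_mul]) ?_
    have h3 : Summable fun n : ℕ => (C1 * c * 3 ^ e / r) *
        ((n : ℝ) ^ (-d) * ((n : ℝ) ^ e) * ((ρ / r) ^ 2) ^ n) := hse.mul_left _
    refine Summable.of_norm_bounded_eventually_nat h3 ?_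
    filter_upwards [eventually_ge_atTop N1, eventually_ge_atTop 1] with n hn hn1
    have hn1' : (1 : ℝ) ≤ (n : ℝ) := by exact_mod_cast hn1
    have hnn : 0 ≤ q (2 * n) / r ^ (2 * n + 1) * (((2 * n : ℕ) : ℝ) + 1) ^ e :=
      mul_nonneg (div_nonneg (hq _) (pow_pos hr _).le) (Real.rpow_nonneg (by positivity) _)
    rw [Real.norm_of_nonneg hnn]
    have h4 : (((2 * n : ℕ) : ℝ) + 1) ^ e ≤ 3 ^ e * (n : ℝ) ^ e := by
      rw [← Real.mul_rpow (by norm_num) (by positivity)]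
      refine Real.rpow_le_rpow (by positivity) ?_ he.le
      push_cast
      linarith
    have h5 : q (2 * n) / r ^ (2 * n + 1) ≤
        C1 * (c * (n : ℝ) ^ (-d) * ρ ^ (2 * n)) / r ^ (2 * n + 1) :=
      div_le_div_of_nonneg_right (hup n hn) (pow_pos hr _).le
    have h6 : 0 ≤ C1 * (c * (n : ℝ) ^ (-d) * ρ ^ (2 * n)) / r ^ (2 * n + 1) :=
      div_nonneg (mul_nonneg hC1.le (hv0 n)) (pow_pos hr _).le
    refine (mul_le_mul h5 h4 (Real.rpow_nonneg (by positivity) _) h6).trans (le_of_eq ?_)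
    have h7 : ((ρ / r) ^ 2) ^ n = ρ ^ (2 * n) / r ^ (2 * n) := by
      rw [← pow_mul, div_pow]
    rw [h7, pow_succ]
    have hr0 : r ^ (2 * n) ≠ 0 := (pow_pos hr _).ne'
    field_simp
  rcases lt_trichotomy ρ r with hρr | hρr | hρr
  · -- small radius
    apply case1 1 (by norm_num) le_rfl
    apply hev 1 one_pos
    have hx0 : 0 ≤ ρ / r := div_nonneg hρ hr.le
    have hx1 : ρ / r < 1 := (div_lt_one hr).2 hρr
    have hx : ‖(ρ / r) ^ 2‖ < 1 := by
      rw [Real.norm_of_nonneg (by positivity)]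
      exact pow_lt_one₀ hx0 hx1 (by norm_num)
    have h3 := summable_pow_mul_geometric_of_norm_lt_one (⌈|-d|⌉₊ + 1) hx
    refine Summable.of_norm_bounded_eventually_nat h3 ?_
    filter_upwards [eventually_ge_atTop 1] with n hn1
    have hn0 : (0 : ℝ) ≤ (n : ℝ) := Nat.cast_nonneg n
    rw [Real.norm_of_nonneg (by positivity), Real.rpow_one, pow_succ]
    have h4 := rpow_le_pow_ceil (-d) hn1
    exact mul_le_mul_of_nonneg_right (mul_le_mul_of_nonneg_right h4 hn0) (by positivity)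
  · -- critical radius
    rcases le_or_gt d (3 / 2) with hd | hd
    · -- small exponent
      apply case2 (c / C2) (N2 + 1) (by positivity)
      intro n hn
      have h3 := hdn n (by omega)
      have hn1 : (1 : ℝ) ≤ (n : ℝ) := by
        have : 1 ≤ n := by omega
        exact_mod_cast this
      have h4 : (n : ℝ) ^ (-(3 / 2) : ℝ) ≤ (n : ℝ) ^ (-d) :=
        Real.rpow_le_rpow_of_exponent_le hn1 (by linarith)
      rw [hρr] at h3
      have hrp : 0 < r ^ (2 * n) := pow_pos hr _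
      rw [div_mul_eq_mul_div, div_le_div_iff₀ hC2 hrp]
      calc c * (n : ℝ) ^ (-(3 / 2) : ℝ) * r ^ (2 * n) ≤ c * (n : ℝ) ^ (-d) * r ^ (2 * n) :=
            mul_le_mul_of_nonneg_right (mul_le_mul_of_nonneg_left h4 hc.le) hrp.le
        _ ≤ C2 * q (2 * n) := h3
        _ = _ := mul_comm _ _
    · -- large exponent
      set e : ℝ := (1 / 2 + min (d - 1) 1) / 2 with he
      have hm1 : 1 / 2 < min (d - 1) 1 := lt_min (by linarith) (by norm_num)
      have hm2 : min (d - 1) 1 ≤ 1 := min_le_right _ _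
      have hm3 : min (d - 1) 1 ≤ d - 1 := min_le_left _ _
      apply case1 e (by linarith) (by linarith)
      apply hev e (by linarith)
      have h3 : Summable fun n : ℕ => (n : ℝ) ^ (-d + e) := by
        rw [Real.summable_nat_rpow]
        linarith
      refine Summable.of_norm_bounded_eventually_nat h3 ?_
      filter_upwards [eventually_ge_atTop 1] with n hn1
      have hn0 : (0 : ℝ) < (n : ℝ) := by exact_mod_cast hn1
      rw [Real.norm_of_nonneg (by positivity), hρr, div_self hr.ne', one_pow, one_pow, mul_one,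
        ← Real.rpow_add hn0]
  · -- large radius
    have hx1 : 1 < (ρ / r) ^ 2 := by
      have h3 : 1 < ρ / r := (one_lt_div hr).2 hρr
      exact one_lt_pow₀ h3 (by norm_num)
    have h3 := isLittleO_pow_const_const_pow_of_one_lt (R := ℝ) ⌈|d|⌉₊ hx1
    have h4 := h3.bound (one_pos : (0 : ℝ) < 1)
    obtain ⟨N3, hN3⟩ := eventually_atTop.1 h4
    apply case2 (c / C2) (N2 + N3 + 1) (by positivity)
    intro n hn
    have h5 := hdn n (by omega)
    have h6 := hN3 n (by omega)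
    have hn1 : 1 ≤ n := by omega
    have hn1' : (1 : ℝ) ≤ (n : ℝ) := by exact_mod_cast hn1
    have hn0 : (0 : ℝ) < (n : ℝ) := by linarith
    rw [one_mul, Real.norm_of_nonneg (by positivity), Real.norm_of_nonneg (by positivity)] at h6
    have h7 : (1 : ℝ) ≤ (n : ℝ) ^ (-d) * ((ρ / r) ^ 2) ^ n := by
      have h8 := (rpow_le_pow_ceil d hn1).trans h6
      have h9 : (n : ℝ) ^ (-d) * (n : ℝ) ^ d = 1 := by
        rw [← Real.rpow_add hn0, neg_add_cancel, Real.rpow_zero]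
      rw [← h9]
      exact mul_le_mul_of_nonneg_left h8 (Real.rpow_nonneg hn0.le _)
    have h8 : (n : ℝ) ^ (-(3 / 2) : ℝ) ≤ 1 := Real.rpow_le_one_of_one_le_of_nonpos hn1' (by norm_num)
    have hrp : 0 < r ^ (2 * n) := pow_pos hr _
    have h9 : ((ρ / r) ^ 2) ^ n * r ^ (2 * n) = ρ ^ (2 * n) := by
      rw [← pow_mul, div_pow, div_mul_cancel₀ _ hrp.ne']
    rw [div_mul_eq_mul_div, div_le_div_iff₀ hC2 hrp]
    calc c * (n : ℝ) ^ (-(3 / 2) : ℝ) * r ^ (2 * n)
        ≤ c * ((n : ℝ) ^ (-d) * ((ρ / r) ^ 2) ^ n) * r ^ (2 * n) :=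
          mul_le_mul_of_nonneg_right (mul_le_mul_of_nonneg_left (h8.trans h7) hc.le) hrp.le
      _ = c * (n : ℝ) ^ (-d) * (((ρ / r) ^ 2) ^ n * r ^ (2 * n)) := by ring
      _ = c * (n : ℝ) ^ (-d) * ρ ^ (2 * n) := by rw [h9]
      _ ≤ C2 * q (2 * n) := h5
      _ = _ := mul_comm _ _

end Pool.Agent.Y151.RD
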