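import Pool.Agent.Y938.RD.Stm

/-!
Final contradiction (tasks RD17, RD18 of the project RD).
-/

set_option autoImplicit false

namespace Pool.Agent.Y151.RD

open Filter Topology Pool.Agent.Y938.RD

theorem term_le {a r s : ℝ} (ha : 0 ≤ a) (hr : 0 < r) (hs : r ≤ s) (n : ℕ) :
    a / s ^ (n + 1) ≤ a / r ^ (n + 1) :=
  div_le_div_of_nonneg_left ha (pow_pos hr _) (pow_le_pow_left₀ hr.le hs _)

theorem fin0_spec : S_fin0 := by
  intro q r K δ D hq hr hsum hδ hδ0 hD0 hD heq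
  have hmem : Set.Ioc (0 : ℝ) 1 ∈ 𝓝[>] (0 : ℝ) := Ioc_mem_nhdsGT one_pos
  have hpart : ∀ N, ∑ n ∈ Finset.range N, q n / r ^ (n + 1) ≤ K := by
    intro N
    have hlim : Tendsto (fun t => ∑ n ∈ Finset.range N, q n / (r + δ t) ^ (n + 1)) (𝓝[>] 0)
        (𝓝 (∑ n ∈ Finset.range N, q n / r ^ (n + 1))) := by
      refine tendsto_finset_sum _ fun n _ => ?_
      have h1 : Tendsto (fun t => (r + δ t) ^ (n + 1)) (𝓝[>] 0) (𝓝 ((r + 0) ^ (n + 1))) :=
        (tendsto_const_nhds.add hδ0).pow _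
      rw [add_zero] at h1
      exact tendsto_const_nhds.div h1 (pow_pos hr _).ne'
    refine le_of_tendsto hlim ?_
    filter_upwards [hmem] with t ht
    have h1 := hsum (r + δ t) (by linarith [hδ t ht.1 ht.2])
    have h2 := heq t ht.1 ht.2
    have h3 := h1.sum_le_tsum (Finset.range N) (fun n _ =>
      div_nonneg (hq n) (pow_pos (by linarith [hδ t ht.1 ht.2]) _).le)
    have h4 := hD t ht.1 ht.2
    linarith
  have hs : Summable fun n : ℕ => q n / r ^ (n + 1) :=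
    summable_of_sum_range_le (fun n => div_nonneg (hq n) (pow_pos hr _).le) hpart
  have hle : ∑' n : ℕ, q n / r ^ (n + 1) ≤ K :=
    Summable.tsum_le_of_sum_range_le hs hpart
  have hge : K ≤ ∑' n : ℕ, q n / r ^ (n + 1) := by
    have hlim : Tendsto (fun t => K - D t) (𝓝[>] 0) (𝓝 (K - 0)) := tendsto_const_nhds.sub hD0
    rw [sub_zero] at hlim
    refine le_of_tendsto hlim ?_
    filter_upwards [hmem] with t ht
    rw [← heq t ht.1 ht.2]
    exact Summable.tsum_le_tsum (fun n => term_le (hq n) hr (by linarith [hδ t ht.1 ht.2]) n)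
      (hsum (r + δ t) (by linarith [hδ t ht.1 ht.2])) hs
  have := hs.hasSum
  rwa [le_antisymm hle hge] at this

theorem one_sub_pow_le {x : ℝ} (hx : 0 ≤ x) {e : ℝ} (he : 0 < e) (he1 : e ≤ 1) (n : ℕ) :
    1 - (1 / (1 + x)) ^ (n + 1) ≤ (((n : ℝ) + 1) * x) ^ e := by
  have hn : (0 : ℝ) ≤ (n : ℝ) + 1 := by positivity
  have h1x : 0 < 1 + x := by linarith
  have hy : 0 ≤ ((n : ℝ) + 1) * x := mul_nonneg hn hx
  rcases le_total (((n : ℝ) + 1) * x) 1 with h | h
  · have h1 : 1 - ((n : ℝ) + 1) * x ≤ (1 / (1 + x)) ^ (n + 1) := by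
      have h2 : -2 ≤ 1 / (1 + x) - 1 := by
        have : 0 < 1 / (1 + x) := by positivity
        linarith
      have h3 := one_add_mul_le_pow h2 (n + 1)
      have h4 : 1 + (1 / (1 + x) - 1) = 1 / (1 + x) := by ring
      rw [h4] at h3
      refine le_trans ?_ h3
      push_cast
      have h5 : -x ≤ 1 / (1 + x) - 1 := by
        rw [le_sub_iff_add_le, le_div_iff₀ h1x]
        nlinarith
      nlinarith
    rcases hy.eq_or_lt with h0 | h0
    · rw [← h0, Real.zero_rpow he.ne']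
      linarith
    · calc 1 - (1 / (1 + x)) ^ (n + 1) ≤ ((n : ℝ) + 1) * x := by linarith
        _ = (((n : ℝ) + 1) * x) ^ (1 : ℝ) := (Real.rpow_one _).symm
        _ ≤ _ := Real.rpow_le_rpow_of_exponent_ge h0 h he1
  · have h1 : 0 ≤ (1 / (1 + x)) ^ (n + 1) := by positivity
    calc 1 - (1 / (1 + x)) ^ (n + 1) ≤ 1 := by linarith
      _ = 1 ^ e := (Real.one_rpow e).symm
      _ ≤ _ := Real.rpow_le_rpow zero_le_one h he.le

theorem hasSum_diff {q : ℕ → ℝ} {r K E s : ℝ} (hq : ∀ n, 0 ≤ q n) (hr : 0 < r) (hs : 0 < s)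
    (hK : HasSum (fun n : ℕ => q n / r ^ (n + 1)) K)
    (hE : ∑' n : ℕ, q n / (r + s) ^ (n + 1) = K - E) :
    HasSum (fun n : ℕ => q n / r ^ (n + 1) * (1 - (1 / (1 + s / r)) ^ (n + 1))) E := by
  have h1 : Summable fun n : ℕ => q n / (r + s) ^ (n + 1) :=
    Summable.of_nonneg_of_le (fun n => div_nonneg (hq n) (pow_pos (by linarith) _).le)
      (fun n => term_le (hq n) hr (by linarith) n) hK.summable
  have h2 := hK.sub h1.hasSum
  rw [hE, sub_sub_cancel] at h2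
  refine h2.congr_fun ?_ |> fun h => h
  intro n
  have h3 : (1 / (1 + s / r)) = r / (r + s) := by
    field_simp
  rw [h3, div_pow]
  have h4 : r ^ (n + 1) ≠ 0 := (pow_pos hr _).ne'
  have h5 : (r + s) ^ (n + 1) ≠ 0 := (pow_pos (by linarith) _).ne'
  field_simp

theorem fin1_spec : S_fin1 := by
  intro q r K e δ D hq hr hδ hδ2 hD heq hK he he1 hsum
  obtain ⟨c, C, hc, hDb⟩ := hD
  have he0 : 0 < e := by linarith
  have hη0 : 0 < (2 * e - 1) / 2 := by linarith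
  have hη1 : (2 * e - 1) / 2 < 1 := by linarith
  obtain ⟨C3, hC30, hC3⟩ := hδ2 ((2 * e - 1) / 2) hη0 hη1
  set a : ℝ := (2 - (2 * e - 1) / 2) * e with ha
  have ha1 : 1 < a := by
    rw [ha]
    nlinarith
  set C1 : ℝ := ∑' n : ℕ, q n / r ^ (n + 1) * ((n : ℝ) + 1) ^ e with hC1
  have hC10 : 0 ≤ C1 := tsum_nonneg fun n => mul_nonneg (div_nonneg (hq n) (pow_pos hr _).le)
    (Real.rpow_nonneg (by positivity) _)
  have hbound : ∀ t : ℝ, 0 < t → t ≤ 1 → c ≤ C1 * (C3 / r) ^ e * t ^ (a - 1) := by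
    intro t ht ht1
    have h1 := hasSum_diff hq hr (hδ t ht ht1) hK (heq t ht ht1)
    have hx : 0 ≤ δ t / r := (div_pos (hδ t ht ht1) hr).le
    have h2 : D t ≤ C1 * (δ t / r) ^ e := by
      rw [← h1.tsum_eq, hC1, ← tsum_mul_right]
      refine Summable.tsum_le_tsum (fun n => ?_) h1.summable (hsum.mul_right _)
      have h3 := one_sub_pow_le hx he0 he1 n
      rw [Real.mul_rpow (by positivity) hx] at h3
      have h4 := mul_le_mul_of_nonneg_left h3 (div_nonneg (hq n) (pow_pos hr (n + 1)).le)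
      refine h4.trans (le_of_eq ?_)
      ring
    have h3 : (δ t / r) ^ e ≤ (C3 / r) ^ e * t ^ a := by
      have h4 : δ t / r ≤ (C3 / r) * t ^ (2 - (2 * e - 1) / 2) := by
        rw [div_mul_eq_mul_div]
        exact div_le_div_of_nonneg_right (hC3 t ht ht1) hr.le
      have h5 := Real.rpow_le_rpow hx h4 he0.le
      rw [Real.mul_rpow (div_nonneg hC30 hr.le) (Real.rpow_nonneg ht.le _),
        ← Real.rpow_mul ht.le] at h5
      exact h5
    have h6 : c * t ≤ C1 * (C3 / r) ^ e * t ^ a := by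
      refine (hDb t ht ht1).1.trans (h2.trans ?_)
      rw [mul_assoc]
      exact mul_le_mul_of_nonneg_left h3 hC10
    have h7 : t ^ a = t ^ (a - 1) * t := by
      rw [← Real.rpow_add_one ht.ne', sub_add_cancel]
    rw [h7, ← mul_assoc] at h6
    exact le_of_mul_le_mul_right h6 ht
  have hlim : Tendsto (fun t : ℝ => C1 * (C3 / r) ^ e * t ^ (a - 1)) (𝓝[>] 0) (𝓝 0) := by
    have h1 : Tendsto (fun t : ℝ => t ^ (a - 1)) (𝓝[>] 0) (𝓝 ((0 : ℝ) ^ (a - 1))) :=
      (Real.continuousAt_rpow_const 0 (a - 1) (Or.inr (by linarith))).tendsto.mono_left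
        nhdsWithin_le_nhds
    rw [Real.zero_rpow (by linarith)] at h1
    have h2 := h1.const_mul (C1 * (C3 / r) ^ e)
    rwa [mul_zero] at h2
  have hcle : c ≤ 0 := by
    refine ge_of_tendsto hlim ?_
    filter_upwards [Ioc_mem_nhdsGT (one_pos : (0 : ℝ) < 1)] with t ht
    exact hbound t ht.1 ht.2
  linarith

theorem fin2_spec : S_fin2 := by
  intro q r K δ D hq hr hδ hδ0 hδ2 hD heq hK c' N0 hc' hlow
  obtain ⟨c, C, hc, hDb⟩ := hD
  have hNN : ∀ᶠ t in 𝓝[>] (0 : ℝ), δ t < r / ((N0 : ℝ) + 1) := by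
    refine hδ0.eventually (gt_mem_nhds ?_)
    positivity
  have hbig : ∀ᶠ t in 𝓝[>] (0 : ℝ), C ^ 2 * (4 * r) * (3 * r / c') ^ 2 + 1 ≤ δ t / t ^ 2 :=
    hδ2.eventually (eventually_ge_atTop _)
  have hm1 : ∀ᶠ t in 𝓝[>] (0 : ℝ), t ∈ Set.Ioc (0 : ℝ) 1 := Ioc_mem_nhdsGT one_pos
  obtain ⟨t, ht, htN, htB⟩ := (hm1.and (hNN.and hbig)).exists
  have hdt := hδ t ht.1 ht.2
  set s : ℝ := δ t with hs
  set N : ℕ := ⌈r / s⌉₊ with hN
  have hrs : (N0 : ℝ) + 1 < r / s := by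
    rw [lt_div_iff₀ (by positivity)] at htN
    rw [lt_div_iff₀ hdt]
    linarith
  have hN1 : r / s ≤ (N : ℝ) := Nat.le_ceil _
  have hN0pos : (0 : ℝ) ≤ (N0 : ℝ) := Nat.cast_nonneg _
  have hN2 : (N : ℝ) ≤ 2 * (r / s) := by
    have h1 : (N : ℝ) < r / s + 1 := Nat.ceil_lt_add_one (by positivity)
    linarith
  have hNN0 : N0 ≤ N := by
    have h1 : (N0 : ℝ) ≤ (N : ℝ) := by linarith
    exact_mod_cast h1
  have hNpos : (0 : ℝ) < (N : ℝ) := by linarith
  have h1 := hasSum_diff hq hr hdt hK (heq t ht.1 ht.2)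
  have hx : 0 < s / r := div_pos hdt hr
  -- the terms
  have hterm : ∀ n ∈ Finset.Ico N (2 * N), c' / r * (2 * (N : ℝ)) ^ (-(3 / 2) : ℝ) * (2 / 3) ≤
      q (2 * n) / r ^ (2 * n + 1) * (1 - (1 / (1 + s / r)) ^ (2 * n + 1)) := by
    intro n hn
    rw [Finset.mem_Ico] at hn
    have hnN : (N : ℝ) ≤ (n : ℝ) := by exact_mod_cast hn.1
    have hnN2 : (n : ℝ) ≤ 2 * (N : ℝ) := by exact_mod_cast hn.2.le
    have hnpos : (0 : ℝ) < (n : ℝ) := by linarith
    have h2 : c' / r * (2 * (N : ℝ)) ^ (-(3 / 2) : ℝ) ≤ q (2 * n) / r ^ (2 * n + 1) := by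
      have h3 := hlow n (hNN0.trans hn.1)
      have h4 : (2 * (N : ℝ)) ^ (-(3 / 2) : ℝ) ≤ (n : ℝ) ^ (-(3 / 2) : ℝ) :=
        Real.rpow_le_rpow_of_nonpos hnpos hnN2 (by norm_num)
      have h5 : q (2 * n) / r ^ (2 * n + 1) = (q (2 * n) / r ^ (2 * n)) / r := by
        rw [pow_succ, div_div]
      rw [h5, div_mul_eq_mul_div]
      refine div_le_div_of_nonneg_right ?_ hr.le
      exact (mul_le_mul_of_nonneg_left h4 hc'.le).trans h3
    have h6 : (2 / 3 : ℝ) ≤ 1 - (1 / (1 + s / r)) ^ (2 * n + 1) := by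
      have h7 : (3 : ℝ) ≤ (1 + s / r) ^ (2 * n + 1) := by
        have h8 := one_add_mul_le_pow (show (-2 : ℝ) ≤ s / r by linarith) (2 * n + 1)
        refine le_trans ?_ h8
        push_cast
        have h9 : 1 ≤ (n : ℝ) * (s / r) := by
          have h10 : r / s * (s / r) = 1 := by field_simp
          have h11 : r / s * (s / r) ≤ (n : ℝ) * (s / r) :=
            mul_le_mul_of_nonneg_right (hN1.trans hnN) hx.le
          linarith
        nlinarith
      rw [one_div, inv_pow]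
      have h8 : ((1 + s / r) ^ (2 * n + 1))⁻¹ ≤ (3 : ℝ)⁻¹ := inv_anti₀ (by norm_num) h7
      linarith
    have hnn : 0 ≤ c' / r * (2 * (N : ℝ)) ^ (-(3 / 2) : ℝ) := by positivity
    exact mul_le_mul h2 h6 (by norm_num) (hnn.trans h2)
  have hsumle : ∑ n ∈ Finset.Ico N (2 * N), q (2 * n) / r ^ (2 * n + 1) *
      (1 - (1 / (1 + s / r)) ^ (2 * n + 1)) ≤ D t := by
    have hnn : ∀ n : ℕ, 0 ≤ q n / r ^ (n + 1) * (1 - (1 / (1 + s / r)) ^ (n + 1)) := by
      intro n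
      refine mul_nonneg (div_nonneg (hq n) (pow_pos hr _).le) ?_
      have h2 : (1 / (1 + s / r)) ^ (n + 1) ≤ 1 := by
        apply pow_le_one₀ (by positivity)
        rw [div_le_one (by linarith)]
        linarith
      linarith
    have h2 := sum_le_hasSum ((Finset.Ico N (2 * N)).image fun n => 2 * n)
      (fun n _ => hnn n) h1
    rw [Finset.sum_image (fun a _ b _ h => by
      have h' : 2 * a = 2 * b := h
      omega)] at h2
    exact h2
  have hlower : c' / (3 * r) * (2 * (N : ℝ)) ^ (-(1 / 2) : ℝ) ≤ D t := by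
    refine le_trans ?_ ((Finset.sum_le_sum hterm).trans hsumle)
    rw [Finset.sum_const, Nat.card_Ico, nsmul_eq_mul]
    have h2 : ((2 * N - N : ℕ) : ℝ) = (N : ℝ) := by
      congr 1
      omega
    rw [h2]
    have h3 : (2 * (N : ℝ)) ^ (-(1 / 2) : ℝ) = (2 * (N : ℝ)) ^ (-(3 / 2) : ℝ) * (2 * (N : ℝ)) := by
      rw [← Real.rpow_add_one (by positivity)]
      norm_num
    rw [h3]
    apply le_of_eq
    field_simp
  have hDC := (hDb t ht.1 ht.2).2
  have hsq : (c' / (3 * r)) ^ 2 * (s / (4 * r)) ≤ C ^ 2 * t ^ 2 := by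
    have h2 : 0 ≤ c' / (3 * r) * (2 * (N : ℝ)) ^ (-(1 / 2) : ℝ) := by positivity
    have h3 : (c' / (3 * r) * (2 * (N : ℝ)) ^ (-(1 / 2) : ℝ)) ^ 2 ≤ (C * t) ^ 2 :=
      pow_le_pow_left₀ h2 (hlower.trans hDC) 2
    rw [mul_pow, mul_pow] at h3
    refine le_trans ?_ h3
    refine mul_le_mul_of_nonneg_left ?_ (by positivity)
    rw [← Real.rpow_natCast, ← Real.rpow_mul (by positivity)]
    have h4 : (-(1 / 2) : ℝ) * ((2 : ℕ) : ℝ) = -1 := by norm_num
    rw [h4, Real.rpow_neg_one]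
    rw [div_le_iff₀ (by positivity), inv_mul_eq_div, le_div_iff₀ (by positivity)]
    have h5 : s * (r / s) = r := by field_simp
    nlinarith
  have ht2 : 0 < t ^ 2 := pow_pos ht.1 2
  rw [le_div_iff₀ ht2] at htB
  have h6 : s ≤ C ^ 2 * (4 * r) * (3 * r / c') ^ 2 * t ^ 2 := by
    have h7 : s = (c' / (3 * r)) ^ 2 * (s / (4 * r)) * ((4 * r) * (3 * r / c') ^ 2) := by
      field_simp
    rw [h7]
    calc (c' / (3 * r)) ^ 2 * (s / (4 * r)) * ((4 * r) * (3 * r / c') ^ 2)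
        ≤ C ^ 2 * t ^ 2 * ((4 * r) * (3 * r / c') ^ 2) :=
          mul_le_mul_of_nonneg_right hsq (by positivity)
      _ = _ := by ring
  linarith

end Pool.Agent.Y151.RD
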